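import Mathlib.Topology.Sheaves.Presheaf
import Mathlib.Algebra.Order.Star.Real
import Mathlib.LinearAlgebra.Complex.FiniteDimensional
import Mathlib.MeasureTheory.Measure.Lebesgue.Complex
import Mathlib.Analysis.CStarAlgebra.Classes
import Mathlib.Analysis.Complex.Isometry
import Mathlib.RingTheory.PiTensorProduct

set_option autoImplicit false

namespace Pool.Agent.MP_c59ecb_co

open MeasureTheory Complex Set
open scoped ComplexConjugate ENNReal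

/-- local coordinates in the frame with origin `c` and first axis `ω` -/
noncomputable def loc (c ω p : ℂ) : ℂ := (p - c) * conj ω

/-- the unit square with centre `c` and direction `ω` -/
def Sq (c ω : ℂ) : Set ℂ := {p | |(loc c ω p).re| ≤ 1 / 2 ∧ |(loc c ω p).im| ≤ 1 / 2}

/-- a rectangle in the frame with origin `c` and first axis `ω` -/
def Box (c ω : ℂ) (x1 x2 y1 y2 : ℝ) : Set ℂ :=
  {p | (loc c ω p).re ∈ Icc x1 x2 ∧ (loc c ω p).im ∈ Icc y1 y2}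

lemma mul_conj_unit {ω : ℂ} (h : ‖ω‖ = 1) : ω * conj ω = 1 := by
  rw [Complex.mul_conj, Complex.normSq_eq_norm_sq, h]
  simp

lemma loc_add {ω : ℂ} (h : ‖ω‖ = 1) (c z : ℂ) : loc c ω (c + ω * z) = z := by
  unfold loc
  linear_combination z * mul_conj_unit h

lemma eq_loc {ω : ℂ} (h : ‖ω‖ = 1) (c p : ℂ) : p = c + ω * loc c ω p := by
  unfold loc
  linear_combination (c - p) * mul_conj_unit h

lemma loc_shift (c ω p ζ z : ℂ) : loc c ω (p + ζ * z) = loc c ω p + ζ * conj ω * z := by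
  unfold loc
  ring

lemma norm_loc {ω : ℂ} (h : ‖ω‖ = 1) (c p : ℂ) : ‖loc c ω p‖ = ‖p - c‖ := by
  rw [loc, norm_mul, Complex.norm_conj, h, mul_one]

lemma continuous_loc (c ω : ℂ) : Continuous (loc c ω) := by
  unfold loc
  fun_prop

lemma isClosed_Sq (c ω : ℂ) : IsClosed (Sq c ω) := by
  have h := continuous_loc c ω
  exact (isClosed_le (continuous_re.comp h).abs continuous_const).inter
    (isClosed_le (continuous_im.comp h).abs continuous_const)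

lemma isClosed_Box (c ω : ℂ) (x1 x2 y1 y2 : ℝ) : IsClosed (Box c ω x1 x2 y1 y2) :=
  (isClosed_Icc.preimage (continuous_re.comp (continuous_loc c ω))).inter
    (isClosed_Icc.preimage (continuous_im.comp (continuous_loc c ω)))

lemma volume_Box {ω : ℂ} (h : ‖ω‖ = 1) (c : ℂ) (x1 x2 y1 y2 : ℝ) :
    volume (Box c ω x1 x2 y1 y2) = ENNReal.ofReal (x2 - x1) * ENNReal.ofReal (y2 - y1) := by
  let u : Circle := ⟨conj ω, by simp [Submonoid.unitSphere, h]⟩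
  have h1 : MeasurePreserving (loc c ω) := by
    have h2 := (rotation u).measurePreserving.comp (measurePreserving_sub_right volume c)
    have h3 : loc c ω = rotation u ∘ fun x => x - c := by
      funext p
      simp [loc, u, mul_comm]
    rw [h3]
    exact h2
  have h3 := (volume_preserving_equiv_real_prod.comp h1).measure_preimage
    (s := Icc x1 x2 ×ˢ Icc y1 y2) (measurableSet_Icc.prod measurableSet_Icc).nullMeasurableSet
  rw [Measure.volume_eq_prod, Measure.prod_prod, Real.volume_Icc, Real.volume_Icc] at h3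
  exact h3

lemma Sq_eq_Box (c ω : ℂ) : Sq c ω = Box c ω (-(1 / 2)) (1 / 2) (-(1 / 2)) (1 / 2) := by
  ext p
  simp only [Sq, Box, mem_ofPred_eq, mem_Icc, abs_le]

lemma volume_Sq {ω : ℂ} (h : ‖ω‖ = 1) (c : ℂ) : volume (Sq c ω) = 1 := by
  rw [Sq_eq_Box, volume_Box h]
  norm_num

lemma box_le {ω : ℂ} (h : ‖ω‖ = 1) (c : ℂ) {x1 x2 y1 y2 a : ℝ} (hx : x1 ≤ x2) (ha : 0 ≤ a)
    {S : Set ℂ} (hS : ∀ s t : ℝ, s ∈ Icc x1 x2 → t ∈ Icc y1 y2 → c + ω * ⟨s, t⟩ ∈ S)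
    (hv : volume S ≤ ENNReal.ofReal a) : (x2 - x1) * (y2 - y1) ≤ a := by
  have h1 : Box c ω x1 x2 y1 y2 ⊆ S := fun p hp => by
    rw [eq_loc h c p]
    exact hS _ _ hp.1 hp.2
  have h2 := (measure_mono h1).trans hv
  rw [volume_Box h, ← ENNReal.ofReal_mul (by linarith)] at h2
  exact (ENNReal.ofReal_le_ofReal_iff ha).1 h2

lemma norm_le_of_mem {c ω p : ℂ} (h : ‖ω‖ = 1) (hp : p ∈ Sq c ω) : ‖p - c‖ ≤ 3 / 4 := by
  rw [← norm_loc h]
  have h1 := abs_le.1 hp.1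
  have h2 := abs_le.1 hp.2
  have h3 : ‖loc c ω p‖ ^ 2 ≤ (3 / 4) ^ 2 := by
    rw [← Complex.normSq_eq_norm_sq, Complex.normSq_apply]
    nlinarith
  exact (pow_le_pow_iff_left₀ (norm_nonneg _) (by norm_num) (by norm_num)).1 h3

lemma mem_of_norm_le {c ω p : ℂ} (h : ‖ω‖ = 1) (hp : ‖p - c‖ ≤ 1 / 2) : p ∈ Sq c ω := by
  rw [← norm_loc h] at hp
  exact ⟨(abs_re_le_norm _).trans hp, (abs_im_le_norm _).trans hp⟩

lemma Sq_mul_I (c ω : ℂ) : Sq c (ω * I) = Sq c ω := by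
  ext p
  have h1 : (loc c (ω * I) p).re = (loc c ω p).im := by
    simp [loc]
    ring
  have h2 : (loc c (ω * I) p).im = -(loc c ω p).re := by
    simp [loc]
  simp only [Sq, mem_ofPred_eq, h1, h2, abs_neg, and_comm]

lemma norm_mk_le {s t r : ℝ} (hr : 0 ≤ r) (h : s ^ 2 + t ^ 2 ≤ r ^ 2) : ‖(⟨s, t⟩ : ℂ)‖ ≤ r := by
  refine (pow_le_pow_iff_left₀ (norm_nonneg _) hr two_ne_zero).1 ?_
  rw [← Complex.normSq_eq_norm_sq, Complex.normSq_apply]
  simp only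
  nlinarith

/-- a point near the centre of one square that lies in another square forces a large overlap -/
lemma deep {c ω c' ω' p : ℂ} (h : ‖ω‖ = 1) (h' : ‖ω'‖ = 1) (hp : p ∈ Sq c' ω')
    (hd : ‖p - c‖ ≤ 1 / 5) {a : ℝ} (ha : 0 ≤ a)
    (hv : volume (Sq c ω ∩ Sq c' ω') ≤ ENNReal.ofReal a) : 1 / 25 ≤ a := by
  obtain ⟨x1, hx1⟩ : ∃ x1 : ℝ, ∀ s ∈ Icc x1 (x1 + 1 / 5),
      |s| ≤ 1 / 5 ∧ |(loc c' ω' p).re + s| ≤ 1 / 2 := by
    have h1 := abs_le.1 hp.1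
    rcases le_total (loc c' ω' p).re 0 with h2 | h2
    · exact ⟨0, fun s hs => ⟨abs_le.2 ⟨by linarith [hs.1], by linarith [hs.2]⟩,
        abs_le.2 ⟨by linarith [hs.1], by linarith [hs.2]⟩⟩⟩
    · exact ⟨-(1 / 5), fun s hs => ⟨abs_le.2 ⟨by linarith [hs.1], by linarith [hs.2]⟩,
        abs_le.2 ⟨by linarith [hs.1], by linarith [hs.2]⟩⟩⟩
  obtain ⟨y1, hy1⟩ : ∃ y1 : ℝ, ∀ s ∈ Icc y1 (y1 + 1 / 5),
      |s| ≤ 1 / 5 ∧ |(loc c' ω' p).im + s| ≤ 1 / 2 := by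
    have h1 := abs_le.1 hp.2
    rcases le_total (loc c' ω' p).im 0 with h2 | h2
    · exact ⟨0, fun s hs => ⟨abs_le.2 ⟨by linarith [hs.1], by linarith [hs.2]⟩,
        abs_le.2 ⟨by linarith [hs.1], by linarith [hs.2]⟩⟩⟩
    · exact ⟨-(1 / 5), fun s hs => ⟨abs_le.2 ⟨by linarith [hs.1], by linarith [hs.2]⟩,
        abs_le.2 ⟨by linarith [hs.1], by linarith [hs.2]⟩⟩⟩
  have h3 := box_le h' p (x1 := x1) (x2 := x1 + 1 / 5) (y1 := y1) (y2 := y1 + 1 / 5)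
    (by linarith) ha (fun s t hs ht => ?_) hv
  · linarith
  · constructor
    · refine mem_of_norm_le h ?_
      have h4 : ‖ω' * (⟨s, t⟩ : ℂ)‖ ≤ 3 / 10 := by
        rw [norm_mul, h', one_mul]
        have h5 := abs_le.1 (hx1 s hs).1
        have h6 := abs_le.1 (hy1 t ht).1
        exact norm_mk_le (by norm_num) (by nlinarith)
      calc ‖p + ω' * ⟨s, t⟩ - c‖ = ‖(p - c) + ω' * ⟨s, t⟩‖ := by ring_nf
        _ ≤ _ := norm_add_le _ _
        _ ≤ 1 / 2 := by linarith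
    · simp only [Sq, mem_ofPred_eq, loc_shift, mul_conj_unit h', one_mul, add_re, add_im]
      exact ⟨(hx1 s hs).2, (hy1 t ht).2⟩

lemma norm_pow_four_sub {ζ ω : ℂ} (h : ‖ζ‖ = 1) (h' : ‖ω‖ = 1) :
    ‖ζ ^ 4 - ω ^ 4‖ = 4 * |(ω * conj ζ).re * (ω * conj ζ).im| := by
  have e : ζ ^ 4 - ω ^ 4 = -(ζ * ω) ^ 2 * ((ω * conj ζ) ^ 2 - (conj (ω * conj ζ)) ^ 2) := by
    have h1 := mul_conj_unit h
    have h2 := mul_conj_unit h'
    simp only [map_mul, conj_conj]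
    linear_combination (ω ^ 4 * (ζ * conj ζ + 1)) * h1 - (ζ ^ 4 * (ω * conj ω + 1)) * h2
  rw [e]
  generalize ω * conj ζ = t
  have e2 : t ^ 2 - (conj t) ^ 2 = ((4 * (t.re * t.im) : ℝ) : ℂ) * I := by
    apply Complex.ext
    · simp [pow_two]
    · simp [pow_two]
      ring
  rw [e2]
  simp [h, h', abs_mul]

/-- a long common chord on an edge forces the directions to agree -/
lemma chord {c ζ c' ω : ℂ} (h : ‖ζ‖ = 1) (h' : ‖ω‖ = 1) {v v' a : ℝ} (hv : |v| ≤ 1 / 2)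
    (hv' : |v'| ≤ 1 / 2) (hp : c + ζ * ⟨1 / 2, v⟩ ∈ Sq c' ω) (hp' : c + ζ * ⟨1 / 2, v'⟩ ∈ Sq c' ω)
    (ha : 0 ≤ a) (hvol : volume (Sq c ζ ∩ Sq c' ω) ≤ ENNReal.ofReal a) :
    (v - v') ^ 2 * ‖ζ ^ 4 - ω ^ 4‖ ≤ 16 * a := by
  rw [norm_pow_four_sub h h']
  set x := (ω * conj ζ).re with hx
  set y := (ω * conj ζ).im with hy
  have hxy : x ^ 2 + y ^ 2 = 1 := by
    have : ‖ω * conj ζ‖ = 1 := by rw [norm_mul, Complex.norm_conj, h, h', mul_one]
    have h2 := Complex.normSq_eq_norm_sq (ω * conj ζ)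
    rw [this, Complex.normSq_apply] at h2
    nlinarith
  set l := v - v' with hl
  have e1 : c + ζ * ⟨1 / 2, v⟩ = (c + ζ * ⟨1 / 2, v'⟩) + ω * ⟨l * y, l * x⟩ := by
    have h3 : ω * ⟨l * y, l * x⟩ = ζ * ((ω * conj ζ) * ⟨l * y, l * x⟩) := by
      linear_combination (-(ω * ⟨l * y, l * x⟩)) * mul_conj_unit h
    have h4 : (ω * conj ζ) * ⟨l * y, l * x⟩ = ⟨0, l⟩ := by
      apply Complex.ext
      · simp only [mul_re, ← hx, ← hy]
        ring
      · simp only [mul_im, ← hx, ← hy]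
        linear_combination l * hxy
    rw [h3, h4, add_assoc, ← mul_add]
    congr 2
    apply Complex.ext <;> simp [hl]
  set q := c + ζ * ⟨1 / 2, v'⟩ with hq
  have key : ∀ σ τ : ℝ, σ ∈ Icc (0 : ℝ) 1 → τ ∈ Icc (0 : ℝ) 1 → l * x * y * (σ - τ) ≤ 0 →
      q + ω * ⟨l * y * σ, l * x * τ⟩ ∈ Sq c ζ ∩ Sq c' ω := by
    intro σ τ hσ hτ hs
    have hv1 := abs_le.1 hv
    have hv2 := abs_le.1 hv'
    constructor
    · have h5 : loc c ζ (q + ω * ⟨l * y * σ, l * x * τ⟩) =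
          ⟨1 / 2 + l * x * y * (σ - τ), v' + l * (y ^ 2 * σ + x ^ 2 * τ)⟩ := by
        rw [loc_shift, hq, loc_add h]
        apply Complex.ext
        · simp only [add_re, mul_re, ← hx, ← hy]
          ring
        · simp only [add_im, mul_im, ← hx, ← hy]
          ring
      have h6 : y ^ 2 * σ + x ^ 2 * τ ∈ Icc (0 : ℝ) 1 :=
        ⟨by have := hσ.1; have := hτ.1; positivity, by nlinarith [hσ.2, hτ.2]⟩
      have h7 : |l * x * y * (σ - τ)| ≤ 1 := by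
        have h8 : |l| ≤ 1 := abs_le.2 ⟨by linarith, by linarith⟩
        have h9 : |x| ≤ 1 := abs_le.2 ⟨by nlinarith, by nlinarith⟩
        have h10 : |y| ≤ 1 := abs_le.2 ⟨by nlinarith, by nlinarith⟩
        have h11 : |σ - τ| ≤ 1 := abs_le.2 ⟨by linarith [hσ.1, hτ.2], by linarith [hσ.2, hτ.1]⟩
        rw [abs_mul, abs_mul, abs_mul]
        exact mul_le_one₀ (mul_le_one₀ (mul_le_one₀ h8 (abs_nonneg _) h9) (abs_nonneg _) h10)
          (abs_nonneg _) h11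
      simp only [Sq, mem_ofPred_eq, h5]
      refine ⟨abs_le.2 ⟨by linarith [(abs_le.1 h7).1], by linarith⟩, abs_le.2 ⟨?_, ?_⟩⟩
      · nlinarith [h6.1, h6.2]
      · nlinarith [h6.1, h6.2]
    · rw [e1] at hp
      simp only [Sq, mem_ofPred_eq, loc_shift, mul_conj_unit h', one_mul, add_re, add_im] at hp hp' ⊢
      have h1 := abs_le.1 hp.1
      have h2 := abs_le.1 hp.2
      have h3 := abs_le.1 hp'.1
      have h4 := abs_le.1 hp'.2
      exact ⟨abs_le.2 ⟨by nlinarith [hσ.1, hσ.2], by nlinarith [hσ.1, hσ.2]⟩,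
        abs_le.2 ⟨by nlinarith [hτ.1, hτ.2], by nlinarith [hτ.1, hτ.2]⟩⟩
  have seg : ∀ (A σ0 : ℝ), ∃ x1 : ℝ, ∀ s ∈ Icc x1 (x1 + |A| / 2),
      ∃ σ ∈ Icc σ0 (σ0 + 1 / 2), s = A * σ := by
    intro A σ0
    rcases lt_trichotomy A 0 with hA | rfl | hA
    · refine ⟨A * (σ0 + 1 / 2), fun s hs => ⟨s / A, ⟨?_, ?_⟩, (mul_div_cancel₀ s hA.ne).symm⟩⟩
      · rw [le_div_iff_of_neg hA]
        have := hs.2
        rw [abs_of_neg hA] at this
        linarith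
      · rw [div_le_iff_of_neg hA]
        linarith [hs.1]
    · exact ⟨0, fun s hs => ⟨σ0, ⟨le_rfl, by linarith⟩, by
        have := hs.2
        simp only [abs_zero, zero_div, add_zero] at this
        linarith [hs.1]⟩⟩
    · refine ⟨A * σ0, fun s hs => ⟨s / A, ⟨?_, ?_⟩, by field_simp⟩⟩
      · rw [le_div_iff₀ hA]
        linarith [hs.1]
      · rw [div_le_iff₀ hA]
        have := hs.2
        rw [abs_of_pos hA] at this
        linarith
  obtain ⟨σ0, τ0, h0⟩ : ∃ σ0 τ0 : ℝ, ∀ σ ∈ Icc σ0 (σ0 + 1 / 2), ∀ τ ∈ Icc τ0 (τ0 + 1 / 2),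
      σ ∈ Icc (0 : ℝ) 1 ∧ τ ∈ Icc (0 : ℝ) 1 ∧ l * x * y * (σ - τ) ≤ 0 := by
    rcases le_total (l * x * y) 0 with hs | hs
    · exact ⟨1 / 2, 0, fun σ hσ τ hτ => ⟨⟨by linarith [hσ.1], by linarith [hσ.2]⟩,
        ⟨hτ.1, by linarith [hτ.2]⟩, mul_nonpos_of_nonpos_of_nonneg hs (by linarith [hσ.1, hτ.2])⟩⟩
    · exact ⟨0, 1 / 2, fun σ hσ τ hτ => ⟨⟨hσ.1, by linarith [hσ.2]⟩,
        ⟨by linarith [hτ.1], by linarith [hτ.2]⟩,
        mul_nonpos_of_nonneg_of_nonpos hs (by linarith [hσ.2, hτ.1])⟩⟩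
  obtain ⟨x1, hx1⟩ := seg (l * y) σ0
  obtain ⟨y1, hy1⟩ := seg (l * x) τ0
  have h3 := box_le h' q (x1 := x1) (x2 := x1 + |l * y| / 2) (y1 := y1) (y2 := y1 + |l * x| / 2)
    (by linarith [abs_nonneg (l * y)]) ha (fun s t hs ht => by
      obtain ⟨σ, hσ, rfl⟩ := hx1 s hs
      obtain ⟨τ, hτ, rfl⟩ := hy1 t ht
      obtain ⟨k1, k2, k3⟩ := h0 σ hσ τ hτ
      exact key σ τ k1 k2 k3) hvol
  have h4 : |l * y| * |l * x| = l ^ 2 * |x * y| := by
    rw [abs_mul, abs_mul, abs_mul, ← sq_abs l]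
    ring
  nlinarith

/-- for normalised directions the fourth powers control the directions -/
lemma norm_sub_le_pow {ω ω' : ℂ} (h : ‖ω - 1‖ ≤ 1 / 100) (h' : ‖ω'‖ = 1)
    (hn : |ω'.im| ≤ ω'.re) : ‖ω - ω'‖ ≤ 10 * ‖ω ^ 4 - ω' ^ 4‖ := by
  have e : ω ^ 4 - ω' ^ 4 = (ω - ω') * ((ω + ω') * ((ω - I * ω') * (ω + I * ω'))) := by
    linear_combination ((ω - ω') * (ω + ω') * ω' ^ 2) * I_mul_I
  have h1 : 99 / 100 ≤ ω.re := by
    have := (abs_le.1 ((abs_re_le_norm (ω - 1)).trans h)).1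
    simp only [sub_re, one_re] at this
    linarith
  have h2 : ω'.re ^ 2 + ω'.im ^ 2 = 1 := by
    have h2 := Complex.normSq_eq_norm_sq ω'
    rw [h', Complex.normSq_apply] at h2
    nlinarith
  have h3 := abs_le.1 hn
  have h4 : 7 / 10 ≤ ω'.re := by nlinarith [abs_nonneg ω'.im]
  have h5 : |ω'.im| ≤ 71 / 100 := by
    have : ω'.im ^ 2 ≤ (71 / 100) ^ 2 := by nlinarith
    exact abs_le.2 (abs_le_of_sq_le_sq' this (by norm_num))
  have h6 := abs_le.1 h5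
  have k1 : 169 / 100 ≤ ‖ω + ω'‖ := le_trans (by simp only [add_re]; linarith) (re_le_norm _)
  have k2 : 28 / 100 ≤ ‖ω - I * ω'‖ := le_trans (by simp; linarith) (re_le_norm _)
  have k3 : 28 / 100 ≤ ‖ω + I * ω'‖ := le_trans (by simp; linarith) (re_le_norm _)
  rw [e, norm_mul, norm_mul, norm_mul]
  have k4 : 28 / 100 * (28 / 100) ≤ ‖ω - I * ω'‖ * ‖ω + I * ω'‖ :=
    mul_le_mul k2 k3 (by norm_num) (norm_nonneg _)
  have k5 : 169 / 100 * (28 / 100 * (28 / 100)) ≤ ‖ω + ω'‖ * (‖ω - I * ω'‖ * ‖ω + I * ω'‖) :=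
    mul_le_mul k1 k4 (by norm_num) (norm_nonneg _)
  nlinarith [norm_nonneg (ω - ω')]

end Pool.Agent.MP_c59ecb_co
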